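import Mathlib

set_option autoImplicit false

namespace Pool.Agent.H633R3.Corr

open Finset Filter Topology

/-- `e x = exp (2 π i x)`. -/
noncomputable def e (x : ℝ) : ℂ := Complex.exp (2 * Real.pi * Complex.I * x)

theorem e_add (x y : ℝ) : e (x + y) = e x * e y := by
  unfold e
  rw [← Complex.exp_add]
  congr 1
  push_cast
  ring

theorem norm_e (x : ℝ) : ‖e x‖ = 1 := by
  unfold e
  have : (2 * Real.pi * Complex.I * x : ℂ) = ((2 * Real.pi * x : ℝ) : ℂ) * Complex.I := by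
    push_cast
    ring
  rw [this, Complex.norm_exp_ofReal_mul_I]

theorem e_zero : e 0 = 1 := by simp [e]

theorem e_ne_zero (x : ℝ) : e x ≠ 0 := Complex.exp_ne_zero _

theorem e_nat_mul (n : ℕ) (x : ℝ) : e (n * x) = e x ^ n := by
  unfold e
  rw [← Complex.exp_nat_mul]
  congr 1
  push_cast
  ring

theorem e_eq_one_iff (x : ℝ) : e x = 1 ↔ ∃ n : ℤ, x = n := by
  unfold e
  rw [Complex.exp_eq_one_iff]
  constructor
  · rintro ⟨n, hn⟩
    refine ⟨n, ?_⟩
    have h2 : (2 * Real.pi * Complex.I : ℂ) ≠ 0 := Complex.two_pi_I_ne_zero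
    have : (x : ℂ) = n := by
      apply mul_left_cancel₀ h2
      rw [hn]
      ring
    exact_mod_cast this
  · rintro ⟨n, rfl⟩
    refine ⟨n, ?_⟩
    push_cast
    ring

theorem conj_e (x : ℝ) : (starRingEnd ℂ) (e x) = e (-x) := by
  unfold e
  rw [← Complex.exp_conj]
  congr 1
  simp only [map_mul, Complex.conj_I, Complex.conj_ofReal, Complex.ofReal_neg, map_ofNat]
  ring

theorem e_sum {ι : Type*} (s : Finset ι) (f : ι → ℝ) : e (∑ i ∈ s, f i) = ∏ i ∈ s, e (f i) := by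
  classical
  induction s using Finset.induction_on with
  | empty => simp [e_zero]
  | insert a s ha ih => rw [Finset.sum_insert ha, Finset.prod_insert ha, e_add, ih]

theorem cesaro_geom {z : ℂ} (hz : ‖z‖ = 1) (h1 : z ≠ 1) :
    Tendsto (fun X : ℕ => (∑ N ∈ range X, z ^ N) / (X : ℂ)) atTop (𝓝 0) := by
  have hlim : Tendsto (fun X : ℕ => (2 / ‖z - 1‖) / (X : ℝ)) atTop (𝓝 0) :=
    tendsto_const_div_atTop_nhds_zero_nat _
  refine squeeze_zero_norm (fun X => ?_) hlim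
  rw [norm_div, Complex.norm_natCast]
  gcongr
  rw [geom_sum_eq h1, norm_div]
  gcongr
  calc ‖z ^ X - 1‖ ≤ ‖z ^ X‖ + ‖(1 : ℂ)‖ := norm_sub_le _ _
    _ = 2 := by rw [norm_pow, hz]; norm_num

theorem cesaro_one :
    Tendsto (fun X : ℕ => (∑ _N ∈ range X, (1 : ℂ)) / (X : ℂ)) atTop (𝓝 1) := by
  have : (fun X : ℕ => (∑ _N ∈ range X, (1 : ℂ)) / (X : ℂ)) =ᶠ[atTop] fun _ => (1 : ℂ) := by
    filter_upwards [eventually_gt_atTop 0] with X hX
    simp [hX.ne']
  exact tendsto_const_nhds.congr' this.symm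

/-- Averages of products of trigonometric polynomials with dissociated frequencies. -/
theorem avg_prod {I : Type*} [Fintype I] [DecidableEq I] (U : Finset ℤ) (h0 : (0 : ℤ) ∈ U)
    (g : I → ℤ → ℂ) (θ : I → ℝ)
    (hθ : ∀ u : I → ℤ, (∀ c, u c ∈ U) → u ≠ 0 → e (∑ c, u c * θ c) ≠ 1) :
    Tendsto (fun X : ℕ => (∑ N ∈ range X, ∏ c, ∑ u ∈ U, g c u * e (u * θ c * N)) / (X : ℂ))
      atTop (𝓝 (∏ c, g c 0)) := by
  have key : ∀ N : ℕ, ∏ c, ∑ u ∈ U, g c u * e (u * θ c * N) =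
      ∑ u ∈ Fintype.piFinset (fun _ : I => U), (∏ c, g c (u c)) * (e (∑ c, u c * θ c)) ^ N := by
    intro N
    rw [Finset.prod_univ_sum]
    refine Finset.sum_congr rfl fun u _ => ?_
    rw [Finset.prod_mul_distrib, ← e_nat_mul, ← e_sum]
    congr 2
    rw [Finset.mul_sum]
    refine Finset.sum_congr rfl fun c _ => ?_
    ring
  have h1 : ∀ X : ℕ, (∑ N ∈ range X, ∏ c, ∑ u ∈ U, g c u * e (u * θ c * N)) / (X : ℂ) =
      ∑ u ∈ Fintype.piFinset (fun _ : I => U), (∏ c, g c (u c)) *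
        ((∑ N ∈ range X, (e (∑ c, u c * θ c)) ^ N) / (X : ℂ)) := by
    intro X
    simp_rw [key]
    rw [Finset.sum_comm, Finset.sum_div]
    refine Finset.sum_congr rfl fun u _ => ?_
    rw [← Finset.mul_sum, mul_div_assoc]
  simp_rw [h1]
  have h2 : (∏ c, g c 0) = ∑ u ∈ Fintype.piFinset (fun _ : I => U), (∏ c, g c (u c)) *
      (if u = 0 then 1 else 0) := by
    rw [Finset.sum_eq_single (0 : I → ℤ)]
    · simp
    · intro u _ hu
      simp [hu]
    · intro h
      exact absurd (Fintype.mem_piFinset.mpr fun _ => h0) h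
  rw [h2]
  refine tendsto_finsetSum _ fun u hu => ?_
  refine Tendsto.const_mul _ ?_
  by_cases hu0 : u = 0
  · subst hu0
    simp only [if_pos]
    have : e (∑ c : I, ((0 : I → ℤ) c : ℝ) * θ c) = 1 := by simp [e_zero]
    simp_rw [this, one_pow]
    exact cesaro_one
  · rw [if_neg hu0]
    exact cesaro_geom (norm_e _) (hθ u (Fintype.mem_piFinset.mp hu) hu0)

end Pool.Agent.H633R3.Corr
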