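import Mathlib
import Pool.Agent.H633R3.Corr1

set_option autoImplicit false

namespace Pool.Agent.H633R3.Corr

open Finset Filter Topology

/-- coefficient of the square of the absolute value of a short Weyl sum -/
noncomputable def KK {L : ℕ} (A : Fin L → ℂ) (α : ℝ) (n0 : ℕ) (p : Fin L × Fin L) : ℂ :=
  e ((2 * ((p.1 : ℤ) - (p.2 : ℤ)) * n0 + ((p.1 : ℤ) - (p.2 : ℤ)) * (2 + p.1 + p.2) : ℤ) * α) *
    (A p.1 * (starRingEnd ℂ) (A p.2))

/-- grouped coefficient -/
noncomputable def gg {L : ℕ} (A : Fin L → ℂ) (α : ℝ) (n0 : ℕ) (u : ℤ) : ℂ :=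
  ∑ p ∈ (univ : Finset (Fin L × Fin L)).filter (fun p => 2 * ((p.1 : ℤ) - (p.2 : ℤ)) = u),
    KK A α n0 p

theorem gg_zero {L : ℕ} (A : Fin L → ℂ) (hA : ∀ i, ‖A i‖ = 1) (α : ℝ) (n0 : ℕ) :
    gg A α n0 0 = L := by
  classical
  have hK : ∀ i : Fin L, KK A α n0 (i, i) = 1 := by
    intro i
    unfold KK
    have h1 : ((2 * (((i, i) : Fin L × Fin L).1 - (((i, i) : Fin L × Fin L).2) : ℤ) * n0 +
        ((((i, i) : Fin L × Fin L).1 : ℤ) - (((i, i) : Fin L × Fin L).2 : ℤ)) *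
          (2 + ((i, i) : Fin L × Fin L).1 + ((i, i) : Fin L × Fin L).2) : ℤ) : ℝ) * α = 0 := by
      push_cast
      ring
    rw [h1, e_zero, one_mul, Complex.mul_conj, Complex.normSq_eq_norm_sq, hA]
    simp
  have h2 : gg A α n0 0 = ∑ i : Fin L, KK A α n0 (i, i) := by
    unfold gg
    refine Finset.sum_nbij' (fun p => p.1) (fun i => (i, i)) ?_ ?_ ?_ ?_ ?_
    · intro p _
      exact Finset.mem_univ _
    · intro i _
      simp
    · intro p hp
      have h3 := (Finset.mem_filter.mp hp).2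
      ext
      · rfl
      · simp only
        omega
    · intro i _
      rfl
    · intro p hp
      have h3 := (Finset.mem_filter.mp hp).2
      have h4 : p = (p.1, p.1) := by
        ext
        · rfl
        · simp only
          omega
      rw [← h4]
  rw [h2]
  simp [hK]

theorem normSq_expand {L : ℕ} (A : Fin L → ℂ) (α : ℝ) (n0 E N : ℕ) :
    (((‖∑ i : Fin L, e (((n0 + E * N + 1 + (i : ℕ) : ℕ) : ℝ) ^ 2 * α) * A i‖ ^ 2 : ℝ)) : ℂ) =
      ∑ u ∈ Finset.Icc (-(2 * L : ℤ)) (2 * L), gg A α n0 u * e (u * (α * E) * N) := by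
  classical
  have h1 : ∀ u ∈ Finset.Icc (-(2 * L : ℤ)) (2 * L), gg A α n0 u * e (u * (α * E) * N) =
      ∑ p ∈ (univ : Finset (Fin L × Fin L)).filter
        (fun p => 2 * ((p.1 : ℤ) - (p.2 : ℤ)) = u),
        KK A α n0 p * e (((2 * ((p.1 : ℤ) - (p.2 : ℤ)) : ℤ) : ℝ) * (α * E) * N) := by
    intro u _
    rw [gg, Finset.sum_mul]
    refine Finset.sum_congr rfl fun p hp => ?_
    rw [(Finset.mem_filter.mp hp).2]
  rw [Finset.sum_congr rfl h1, Finset.sum_fiberwise_of_maps_to (s := univ)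
    (g := fun p : Fin L × Fin L => 2 * ((p.1 : ℤ) - (p.2 : ℤ)))]
  swap
  · intro p _
    have h2 := p.1.2
    have h3 := p.2.2
    simp only [Finset.mem_Icc]
    omega
  rw [← Complex.normSq_eq_norm_sq, ← Complex.mul_conj, map_sum, Finset.sum_mul_sum,
    ← Finset.univ_product_univ, Finset.sum_product]
  refine Finset.sum_congr rfl fun i _ => Finset.sum_congr rfl fun j _ => ?_
  rw [map_mul, conj_e, KK]
  simp only
  have h4 : e ((2 * ((i : ℤ) - (j : ℤ)) * n0 + ((i : ℤ) - (j : ℤ)) * (2 + i + j) : ℤ) * α) *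
      e (((2 * ((i : ℤ) - (j : ℤ)) : ℤ) : ℝ) * (α * E) * N) =
      e (((n0 + E * N + 1 + (i : ℕ) : ℕ) : ℝ) ^ 2 * α) *
        e (-(((n0 + E * N + 1 + (j : ℕ) : ℕ) : ℝ) ^ 2 * α)) := by
    rw [← e_add, ← e_add]
    congr 1
    push_cast
    ring
  calc e (((n0 + E * N + 1 + (i : ℕ) : ℕ) : ℝ) ^ 2 * α) * A i *
      (e (-(((n0 + E * N + 1 + (j : ℕ) : ℕ) : ℝ) ^ 2 * α)) * (starRingEnd ℂ) (A j))
      = (e (((n0 + E * N + 1 + (i : ℕ) : ℕ) : ℝ) ^ 2 * α) *
        e (-(((n0 + E * N + 1 + (j : ℕ) : ℕ) : ℝ) ^ 2 * α))) *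
        (A i * (starRingEnd ℂ) (A j)) := by ring
    _ = _ := by
        rw [← h4]
        ring

theorem coprime_aux {M i j : ℕ} (hij : i < j) (hd : (j - i) ∣ M) :
    Nat.Coprime (1 + (i + 1) * M) (1 + (j + 1) * M) := by
  by_contra hc
  obtain ⟨p, hp, h1, h2⟩ := Nat.Prime.not_coprime_iff_dvd.mp hc
  have h3 : p ∣ (j - i) * M := by
    have h := Nat.dvd_sub h2 h1
    have : 1 + (j + 1) * M - (1 + (i + 1) * M) = (j - i) * M := by
      obtain ⟨k, rfl⟩ := Nat.exists_eq_add_of_lt hij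
      have : i + k + 1 - i = k + 1 := by omega
      rw [this]
      have : 1 + (i + k + 1 + 1) * M = (k + 1) * M + (1 + (i + 1) * M) := by ring
      omega
    rwa [this] at h
  have h4 : p ∣ M := by
    rcases (hp.dvd_mul).mp h3 with h | h
    · exact h.trans hd
    · exact h
  have h5 : p ∣ 1 := by
    have := (Nat.dvd_add_left (h4.mul_left (i + 1))).mp h1
    exact this
  exact hp.one_lt.ne' (Nat.dvd_one.mp h5)

/-- digit weights -/
def phi (q x : ℕ) : ℕ := if x % 2 = 0 then q else q - x / 2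

/-- the merging map of layer `s` -/
def comp (q : ℕ) (s : Fin q) (x : Fin (2 * q)) : Fin (2 * q - 1) :=
  if h : (x : ℕ) ≤ 2 * s then ⟨x, by have := s.2; omega⟩ else ⟨x - 1, by have := x.2; omega⟩

/-- positions in layer `s` -/
def psi (q s y : ℕ) : ℕ :=
  if y ≤ 2 * s then phi q y + s * y else phi q (y + 1) + s * (y + 1)

theorem psi_comp (q : ℕ) (s : Fin q) (x : Fin (2 * q)) :
    psi q s (comp q s x) = phi q x + s * x := by
  have hs := s.2
  unfold comp psi
  by_cases h : (x : ℕ) ≤ 2 * s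
  · rw [dif_pos h, if_pos h]
  · rw [dif_neg h]
    simp only
    by_cases h2 : (x : ℕ) = 2 * s + 1
    · rw [h2]
      simp only [Nat.add_sub_cancel, le_refl, if_true]
      unfold phi
      have e1 : (2 * (s : ℕ)) % 2 = 0 := by omega
      have e2 : ¬ (2 * (s : ℕ) + 1) % 2 = 0 := by omega
      have e3 : (2 * (s : ℕ) + 1) / 2 = s := by omega
      rw [if_pos e1, if_neg e2, e3]
      have : (s : ℕ) * (2 * s + 1) = s * (2 * s) + s := by ring
      omega
    · have h3 : ¬ ((x : ℕ) - 1 ≤ 2 * s) := by omega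
      have h4 : (x : ℕ) - 1 + 1 = x := by omega
      rw [if_neg h3, h4]

end Pool.Agent.H633R3.Corr
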