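import Mathlib
import Pool.Agent.H633R3.Corr2

set_option autoImplicit false

namespace Pool.Agent.H633R3.Corr

open Finset Filter Topology

/-- finite nets in the circle -/
theorem exists_net {ε : ℝ} (hε : 0 < ε) :
    ∃ T : Finset Circle, ∀ z : Circle, ∃ t ∈ T, ‖(z : ℂ) - t‖ < ε := by
  obtain ⟨t, _, ht, hcov⟩ := (isCompact_univ : IsCompact (Set.univ : Set Circle)).finite_cover_balls hε
  refine ⟨ht.toFinset, fun z => ?_⟩
  obtain ⟨x, hx, hz⟩ := Set.mem_iUnion₂.mp (hcov (Set.mem_univ z))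
  refine ⟨x, ht.mem_toFinset.mpr hx, ?_⟩
  have hz' : dist (z : ℂ) (x : ℂ) < ε := hz
  rwa [dist_eq_norm] at hz'

theorem norm_prod_sub_le {ι : Type*} (s : Finset ι) (z w : ι → Circle) {ε : ℝ}
    (h : ∀ i ∈ s, ‖(z i : ℂ) - w i‖ ≤ ε) :
    ‖∏ i ∈ s, (z i : ℂ) - ∏ i ∈ s, (w i : ℂ)‖ ≤ s.card * ε := by
  classical
  induction s using Finset.induction_on with
  | empty => simp
  | insert a s ha ih =>
    rw [Finset.prod_insert ha, Finset.prod_insert ha, Finset.card_insert_of_notMem ha]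
    have h1 := ih fun i hi => h i (Finset.mem_insert_of_mem hi)
    have h2 := h a (Finset.mem_insert_self a s)
    have h3 : (z a : ℂ) * ∏ i ∈ s, (z i : ℂ) - (w a : ℂ) * ∏ i ∈ s, (w i : ℂ) =
        (z a : ℂ) * (∏ i ∈ s, (z i : ℂ) - ∏ i ∈ s, (w i : ℂ)) +
          ((z a : ℂ) - w a) * ∏ i ∈ s, (w i : ℂ) := by ring
    rw [h3]
    refine (norm_add_le _ _).trans ?_
    rw [norm_mul, norm_mul, Circle.norm_coe, one_mul]
    have h4 : ‖∏ i ∈ s, (w i : ℂ)‖ = 1 := by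
      rw [norm_prod]
      exact Finset.prod_eq_one fun i _ => Circle.norm_coe _
    rw [h4, mul_one]
    push_cast
    linarith

theorem exists_r (t : ℕ) (K q : ℕ) (hq : 1 ≤ q) {ρ : ℝ} (h0 : 0 ≤ ρ) (h1 : ρ < 1) :
    ∃ r : ℕ, (t : ℝ) ^ (K * (2 * q - 1) ^ r) * ρ ^ ((2 * q) ^ r) < 1 := by
  have hlim : Tendsto (fun n : ℕ => (t : ℝ) ^ K * ρ ^ n) atTop (𝓝 ((t : ℝ) ^ K * 0)) :=
    (tendsto_pow_atTop_nhds_zero_of_lt_one h0 h1).const_mul _
  rw [mul_zero] at hlim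
  obtain ⟨n0, hn0⟩ := (hlim.eventually (gt_mem_nhds one_pos)).exists
  have hq1 : (0 : ℝ) < ((2 * q - 1 : ℕ) : ℝ) := by
    have : 1 ≤ 2 * q - 1 := by omega
    exact_mod_cast this
  have hratio : (1 : ℝ) < ((2 * q : ℕ) : ℝ) / ((2 * q - 1 : ℕ) : ℝ) := by
    rw [one_lt_div hq1]
    have : 2 * q - 1 < 2 * q := by omega
    exact_mod_cast this
  obtain ⟨r, hr⟩ := ((tendsto_pow_atTop_atTop_of_one_lt hratio).eventually
    (eventually_ge_atTop (n0 : ℝ))).exists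
  have hle : n0 * (2 * q - 1) ^ r ≤ (2 * q) ^ r := by
    rw [div_pow, le_div_iff₀ (pow_pos hq1 r)] at hr
    exact_mod_cast hr
  refine ⟨r, ?_⟩
  calc (t : ℝ) ^ (K * (2 * q - 1) ^ r) * ρ ^ ((2 * q) ^ r)
      ≤ (t : ℝ) ^ (K * (2 * q - 1) ^ r) * ρ ^ (n0 * (2 * q - 1) ^ r) := by
        gcongr ?_ * ?_
        exact pow_le_pow_of_le_one h0 h1.le hle
    _ = ((t : ℝ) ^ K * ρ ^ n0) ^ ((2 * q - 1) ^ r) := by
        rw [mul_pow, ← pow_mul, ← pow_mul]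
    _ < 1 := by
        refine pow_lt_one₀ (by positivity) hn0 ?_
        have : 0 < (2 * q - 1) ^ r := by
          apply pow_pos
          omega
        omega

theorem window_bound {F : ℕ → ℂ} {C : ℝ} (hC : ∀ n : ℕ, 1 ≤ n → ‖∑ k ∈ Finset.Icc 1 n, F k‖ ≤ C)
    (N L : ℕ) : ‖∑ i : Fin L, F (N + 1 + (i : ℕ))‖ ≤ 2 * C := by
  have hC0 : 0 ≤ C := (norm_nonneg _).trans (hC 1 le_rfl)
  have h1 : ∀ n : ℕ, ‖∑ k ∈ range n, F (k + 1)‖ ≤ C := by
    intro n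
    rcases Nat.eq_zero_or_pos n with rfl | hn
    · simpa using hC0
    · have := hC n hn
      have h2 : ∑ k ∈ Finset.Icc 1 n, F k = ∑ k ∈ range n, F (k + 1) := by
        rw [Finset.range_eq_Ico, Finset.sum_Ico_add' F 0 n 1]
        rfl
      rwa [h2] at this
  have h2 := Finset.sum_range_add (fun k => F (k + 1)) N L
  have h3 : ∑ i : Fin L, F (N + 1 + (i : ℕ)) = ∑ i ∈ range L, F (N + i + 1) := by
    rw [Finset.sum_range]
    refine Finset.sum_congr rfl fun i _ => ?_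
    congr 1
    ring
  rw [h3]
  have h4 : ∑ i ∈ range L, F (N + i + 1) =
      ∑ k ∈ range (N + L), F (k + 1) - ∑ k ∈ range N, F (k + 1) := by
    rw [h2]
    ring
  rw [h4]
  refine (norm_sub_le _ _).trans ?_
  linarith [h1 (N + L), h1 N]

end Pool.Agent.H633R3.Corr
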