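import Mathlib
import Pool.Agent.H633R3.Corr3

set_option autoImplicit false

namespace Pool.Agent.H633R3.Corr

open Finset Filter Topology

section Config

variable (q r R : ℕ)

/-- the code of a digit vector -/
def kap (c : Fin r → Fin (2 * q)) : ℕ := ∑ i : Fin r, (c i : ℕ) * (2 * q) ^ (i : ℕ)

theorem kap_lt (c : Fin r → Fin (2 * q)) : kap q r c < (2 * q) ^ r := by
  have := (finFunctionFinEquiv c).2
  rwa [finFunctionFinEquiv_apply] at this

theorem kap_inj {c c' : Fin r → Fin (2 * q)} (h : kap q r c = kap q r c') : c = c' := by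
  apply finFunctionFinEquiv.injective
  apply Fin.ext
  rw [finFunctionFinEquiv_apply, finFunctionFinEquiv_apply]
  exact h

/-- the common modulus; `R` is an extra size parameter -/
def MM : ℕ := ((2 * q) ^ r + R).factorial

/-- the dilations -/
def del (c : Fin r → Fin (2 * q)) : ℕ := 1 + (kap q r c + 1) * MM q r R

theorem del_coprime {c c' : Fin r → Fin (2 * q)} (h : c ≠ c') :
    Nat.Coprime (del q r R c) (del q r R c') := by
  have hne : kap q r c ≠ kap q r c' := fun h' => h (kap_inj q r h')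
  have aux : ∀ c c' : Fin r → Fin (2 * q), kap q r c < kap q r c' →
      Nat.Coprime (del q r R c) (del q r R c') := by
    intro c c' hlt
    refine coprime_aux hlt ?_
    refine Nat.dvd_factorial (by omega) ?_
    have := kap_lt q r c'
    omega
  rcases lt_or_gt_of_ne hne with h1 | h1
  · exact aux _ _ h1
  · exact (aux _ _ h1).symm

theorem del_gt (c : Fin r → Fin (2 * q)) : R < del q r R c := by
  have h1 : (2 * q) ^ r + R ≤ MM q r R := Nat.self_le_factorial _
  have h2 : MM q r R ≤ (kap q r c + 1) * MM q r R := Nat.le_mul_of_pos_left _ (by omega)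
  unfold del
  omega

theorem del_pos (c : Fin r → Fin (2 * q)) : 0 < del q r R c := (Nat.zero_le _).trans_lt (del_gt q r R c)

/-- offsets -/
def AA (c : Fin r → Fin (2 * q)) : ℕ := ∑ i : Fin r, phi q (c i) * (2 * q) ^ (i : ℕ)

theorem exists_crt : ∃ m0 : ℕ, ∀ c : Fin r → Fin (2 * q),
    del q r R c ∣ m0 + MM q r R * AA q r c := by
  classical
  obtain ⟨k, hk⟩ := Nat.chineseRemainderOfFinset
    (fun c : Fin r → Fin (2 * q) => MM q r R * AA q r c * (del q r R c - 1))
    (del q r R) Finset.univ (fun c _ => (del_pos q r R c).ne')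
    (fun c _ c' _ h => del_coprime q r R h)
  refine ⟨k, fun c => ?_⟩
  have h1 := hk c (Finset.mem_univ c)
  have h2 : k + MM q r R * AA q r c ≡
      MM q r R * AA q r c * (del q r R c - 1) + MM q r R * AA q r c [MOD del q r R c] :=
    h1.add_right _
  have h3 : MM q r R * AA q r c * (del q r R c - 1) + MM q r R * AA q r c =
      del q r R c * (MM q r R * AA q r c) := by
    obtain ⟨n, hn⟩ := Nat.exists_eq_add_of_lt (del_pos q r R c)
    rw [hn]
    have : 0 + n + 1 - 1 = n := by omega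
    rw [this]
    ring
  rw [h3] at h2
  exact (Nat.modEq_zero_iff_dvd).mp (h2.trans ((Nat.modEq_zero_iff_dvd).mpr (dvd_mul_right _ _)))

/-- cofactors -/
def EE (c : Fin r → Fin (2 * q)) : ℕ := ∏ c' ∈ Finset.univ.erase c, del q r R c'

/-- full modulus -/
def DD : ℕ := ∏ c' : Fin r → Fin (2 * q), del q r R c'

theorem del_mul_EE (c : Fin r → Fin (2 * q)) : del q r R c * EE q r R c = DD q r R := by
  unfold EE DD
  exact Finset.mul_prod_erase _ _ (Finset.mem_univ c)

theorem EE_coprime (c : Fin r → Fin (2 * q)) : Nat.Coprime (EE q r R c) (del q r R c) := by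
  unfold EE
  refine Nat.Coprime.prod_left fun c' hc' => ?_
  exact del_coprime q r R (Finset.ne_of_mem_erase hc')

theorem del_dvd_EE {c c' : Fin r → Fin (2 * q)} (h : c ≠ c') : del q r R c ∣ EE q r R c' := by
  unfold EE
  exact Finset.dvd_prod_of_mem _ (Finset.mem_erase.mpr ⟨h, Finset.mem_univ c⟩)

theorem sum_ne_zero {U : Finset ℤ} (hU : ∀ u ∈ U, |u| ≤ R)
    (u : (Fin r → Fin (2 * q)) → ℤ) (hu : ∀ c, u c ∈ U) (hne : u ≠ 0) :
    ∑ c, u c * (EE q r R c : ℤ) ≠ 0 := by
  classical
  intro h0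
  apply hne
  funext c
  have h1 : ((del q r R c : ℕ) : ℤ) ∣ u c * (EE q r R c : ℤ) := by
    rw [← Finset.add_sum_erase _ _ (Finset.mem_univ c)] at h0
    have h2 : ((del q r R c : ℕ) : ℤ) ∣ ∑ c' ∈ Finset.univ.erase c, u c' * (EE q r R c' : ℤ) := by
      refine Finset.dvd_sum fun c' hc' => ?_
      exact Dvd.dvd.mul_left (by exact_mod_cast del_dvd_EE q r R (Finset.ne_of_mem_erase hc').symm) _
    exact (dvd_add_left h2).mp (h0 ▸ dvd_zero _)
  have h2 : ((del q r R c : ℕ) : ℤ) ∣ u c := by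
    have hc : IsCoprime ((del q r R c : ℕ) : ℤ) (EE q r R c : ℤ) :=
      Nat.isCoprime_iff_coprime.mpr (EE_coprime q r R c).symm
    exact hc.dvd_of_dvd_mul_right h1
  refine Int.eq_zero_of_abs_lt_dvd h2 ?_
  have h3 := hU _ (hu c)
  have h4 : (R : ℤ) < (del q r R c : ℕ) := by exact_mod_cast del_gt q r R c
  omega

/-- positions -/
def pos (m0 N : ℕ) (s : Fin q) (v : Fin r → Fin (2 * q - 1)) : ℕ :=
  m0 + DD q r R * N + s * (1 + MM q r R) +
    MM q r R * ∑ i : Fin r, psi q s (v i) * (2 * q) ^ (i : ℕ)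

theorem pos_eq {m0 : ℕ} {N0 : (Fin r → Fin (2 * q)) → ℕ}
    (hN0 : ∀ c, m0 + MM q r R * AA q r c = del q r R c * N0 c) (N : ℕ) (s : Fin q)
    (c : Fin r → Fin (2 * q)) :
    del q r R c * (N0 c + EE q r R c * N + s) =
      pos q r R m0 N s (fun i => comp q s (c i)) := by
  have h1 : ∑ i : Fin r, psi q s (comp q s (c i)) * (2 * q) ^ (i : ℕ) =
      AA q r c + s * kap q r c := by
    unfold AA kap
    rw [Finset.mul_sum, ← Finset.sum_add_distrib]
    refine Finset.sum_congr rfl fun i _ => ?_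
    rw [psi_comp]
    ring
  unfold pos
  rw [h1, mul_add, mul_add, ← hN0 c, ← mul_assoc, del_mul_EE]
  unfold del
  ring

end Config

end Pool.Agent.H633R3.Corr
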