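import Mathlib
import Pool.Agent.H633R3.Corr4

set_option autoImplicit false

namespace Pool.Agent.H633R3.Corr

open Finset Filter Topology

/-- The trigonometric majorant. -/
noncomputable def GG {L : ℕ} (A : Fin L → ℂ) (α B : ℝ) (n0 E N : ℕ) : ℝ :=
  ((L : ℝ) ^ 2 - ‖∑ i : Fin L, e (((n0 + E * N + 1 + (i : ℕ) : ℕ) : ℝ) ^ 2 * α) * A i‖ ^ 2) /
    ((L : ℝ) ^ 2 - B ^ 2)

noncomputable def gc {L : ℕ} (A : Fin L → ℂ) (α B : ℝ) (n0 : ℕ) (u : ℤ) : ℂ :=
  ((if u = 0 then (L : ℂ) ^ 2 else 0) - gg A α n0 u) / ((L : ℂ) ^ 2 - (B : ℂ) ^ 2)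

theorem GG_expand {L : ℕ} (A : Fin L → ℂ) (α B : ℝ) (n0 E N : ℕ) :
    (GG A α B n0 E N : ℂ) =
      ∑ u ∈ Finset.Icc (-(2 * L : ℤ)) (2 * L), gc A α B n0 u * e (u * (α * E) * N) := by
  classical
  have h1 : ∀ u ∈ Finset.Icc (-(2 * L : ℤ)) (2 * L), gc A α B n0 u * e (u * (α * E) * N) =
      ((if u = 0 then (L : ℂ) ^ 2 else 0) - gg A α n0 u * e (u * (α * E) * N)) /
        ((L : ℂ) ^ 2 - (B : ℂ) ^ 2) := by
    intro u _
    unfold gc
    by_cases hu : u = 0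
    · subst hu
      simp [e_zero]
    · simp only [if_neg hu]
      ring
  rw [Finset.sum_congr rfl h1, ← Finset.sum_div, Finset.sum_sub_distrib, ← normSq_expand,
    Finset.sum_ite_eq' (Finset.Icc (-(2 * L : ℤ)) (2 * L)) 0 (fun _ => (L : ℂ) ^ 2), if_pos]
  · unfold GG
    push_cast
    rfl
  · simp only [Finset.mem_Icc]
    omega

theorem GG_nonneg {L : ℕ} (A : Fin L → ℂ) (hA : ∀ i, ‖A i‖ = 1) (α B : ℝ)
    (hB : 0 < (L : ℝ) ^ 2 - B ^ 2) (n0 E N : ℕ) : 0 ≤ GG A α B n0 E N := by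
  unfold GG
  refine div_nonneg ?_ hB.le
  have h1 : ‖∑ i : Fin L, e (((n0 + E * N + 1 + (i : ℕ) : ℕ) : ℝ) ^ 2 * α) * A i‖ ≤ L := by
    refine (norm_sum_le _ _).trans ?_
    refine (Finset.sum_le_sum (g := fun _ => (1 : ℝ)) fun i _ => ?_).trans ?_
    · rw [norm_mul, norm_e, hA, one_mul]
    · simp
  have h2 := pow_le_pow_left₀ (norm_nonneg _) h1 2
  linarith

theorem GG_ge_one {L : ℕ} (A : Fin L → ℂ) (α B : ℝ)
    (hB : 0 < (L : ℝ) ^ 2 - B ^ 2) (n0 E N : ℕ)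
    (h : ‖∑ i : Fin L, e (((n0 + E * N + 1 + (i : ℕ) : ℕ) : ℝ) ^ 2 * α) * A i‖ ≤ B) :
    1 ≤ GG A α B n0 E N := by
  unfold GG
  rw [one_le_div hB]
  have h2 := pow_le_pow_left₀ (norm_nonneg _) h 2
  linarith

theorem gc_zero {L : ℕ} (A : Fin L → ℂ) (hA : ∀ i, ‖A i‖ = 1) (α B : ℝ) (n0 : ℕ) :
    gc A α B n0 0 = ((((L : ℝ) ^ 2 - L) / ((L : ℝ) ^ 2 - B ^ 2) : ℝ) : ℂ) := by
  unfold gc
  rw [gg_zero A hA, if_pos rfl]
  push_cast
  rfl

theorem avg_GG (q r L : ℕ) {α : ℝ} (hα : Irrational α) (B : ℝ)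
    (A : (Fin r → Fin (2 * q)) → Fin L → ℂ) (hA : ∀ c i, ‖A c i‖ = 1)
    (N0 : (Fin r → Fin (2 * q)) → ℕ) :
    Tendsto (fun X : ℕ => (∑ N ∈ range X, ∏ c, GG (A c) α B (N0 c) (EE q r (2 * L) c) N) / (X : ℝ))
      atTop (𝓝 ((((L : ℝ) ^ 2 - L) / ((L : ℝ) ^ 2 - B ^ 2)) ^ ((2 * q) ^ r))) := by
  classical
  have h1 := avg_prod (I := Fin r → Fin (2 * q)) (Finset.Icc (-(2 * L : ℤ)) (2 * L))
    (by simp only [Finset.mem_Icc]; omega) (fun c => gc (A c) α B (N0 c))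
    (fun c => α * (EE q r (2 * L) c : ℝ)) (by
      intro u hu hne he
      rw [e_eq_one_iff] at he
      obtain ⟨n, hn⟩ := he
      have h2 := sum_ne_zero q r (2 * L) (U := Finset.Icc (-(2 * L : ℤ)) (2 * L)) (by
        intro u hu
        rw [Finset.mem_Icc] at hu
        rw [abs_le]
        push_cast
        exact hu) u hu hne
      have h3 : α * ((∑ c, u c * (EE q r (2 * L) c : ℤ) : ℤ) : ℝ) = n := by
        rw [← hn]
        push_cast
        rw [Finset.mul_sum]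
        refine Finset.sum_congr rfl fun c _ => ?_
        ring
      exact (hα.mul_intCast h2).ne_int n h3)
  have h2 : ∀ X : ℕ, (∑ N ∈ range X, ∏ c, ∑ u ∈ Finset.Icc (-(2 * L : ℤ)) (2 * L),
      gc (A c) α B (N0 c) u * e (u * (α * (EE q r (2 * L) c : ℝ)) * N)) / (X : ℂ) =
      (((∑ N ∈ range X, ∏ c, GG (A c) α B (N0 c) (EE q r (2 * L) c) N) / (X : ℝ) : ℝ) : ℂ) := by
    intro X
    push_cast
    congr 1
    refine Finset.sum_congr rfl fun N _ => Finset.prod_congr rfl fun c _ => ?_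
    rw [GG_expand]
  simp_rw [h2] at h1
  have h3 : (∏ c : Fin r → Fin (2 * q), gc (A c) α B (N0 c) 0) =
      (((((L : ℝ) ^ 2 - L) / ((L : ℝ) ^ 2 - B ^ 2)) ^ ((2 * q) ^ r) : ℝ) : ℂ) := by
    rw [Finset.prod_congr rfl fun c _ => gc_zero (A c) (hA c) α B (N0 c), Finset.prod_const,
      Finset.card_univ, Fintype.card_fun, Fintype.card_fin, Fintype.card_fin, Complex.ofReal_pow]
  rw [h3] at h1
  exact (Complex.continuous_re.tendsto _).comp h1

/-- Bounded correlations against `e (k ^ 2 α)` are impossible. -/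
theorem no_bound {l : ℕ} (a : Fin l → ℕ → Circle) (h : Fin l → ℕ) {α : ℝ} (hα : Irrational α)
    (C : ℝ)
    (hC : ∀ d n : ℕ, 1 ≤ d → 1 ≤ n →
      ‖∑ k ∈ Finset.Icc 1 n, e ((k : ℝ) ^ 2 * α) * ∏ j, (a j (d * (k + h j)) : ℂ)‖ ≤ C) :
    False := by
  classical
  have hC0 : 0 ≤ C := (norm_nonneg _).trans (hC 1 1 le_rfl le_rfl)
  set B : ℝ := 2 * C + 1 with hB
  obtain ⟨L, hL⟩ := exists_nat_gt (B ^ 2)
  have hB1 : 1 ≤ B := by linarith
  have hL1 : (1 : ℝ) < L := by nlinarith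
  set H : ℕ := ∑ j, h j with hH
  have hH' : ∀ j, h j ≤ H := fun j =>
    Finset.single_le_sum (f := h) (fun _ _ => Nat.zero_le _) (Finset.mem_univ j)
  set q : ℕ := L + H + 1 with hq
  have hε : (0 : ℝ) < 1 / (L * l + 1) := by positivity
  obtain ⟨T, hT⟩ := exists_net hε
  choose τ hτT hτ using hT
  have hden : 0 < (L : ℝ) ^ 2 - B ^ 2 := by nlinarith
  set ρ : ℝ := ((L : ℝ) ^ 2 - L) / ((L : ℝ) ^ 2 - B ^ 2) with hρ
  have hρ0 : 0 ≤ ρ := div_nonneg (by nlinarith) hden.le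
  have hρ1 : ρ < 1 := by
    rw [hρ, div_lt_one hden]
    linarith
  obtain ⟨r, hr⟩ := exists_r T.card (l * q) q (by omega) hρ0 hρ1
  obtain ⟨m0, hm0⟩ := exists_crt q r (2 * L)
  choose N0 hN0 using hm0
  have hs : ∀ (i : Fin L) (j : Fin l), 1 + (i : ℕ) + h j < q := by
    intro i j
    have h1 := i.2
    have h2 := hH' j
    omega
  let Y := (Fin l × Fin q × (Fin r → Fin (2 * q - 1))) → {x // x ∈ T}
  let At : Y → (Fin r → Fin (2 * q)) → Fin L → ℂ := fun y c i =>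
    ∏ j, (((y (j, ⟨1 + i + h j, hs i j⟩,
      fun t => comp q ⟨1 + i + h j, hs i j⟩ (c t))) : Circle) : ℂ)
  have hAt : ∀ y c i, ‖At y c i‖ = 1 := by
    intro y c i
    simp only [At]
    rw [norm_prod]
    exact Finset.prod_eq_one fun j _ => Circle.norm_coe _
  -- the limit of the averages
  have hlim : Tendsto (fun X : ℕ => ∑ y : Y, (∑ N ∈ range X,
      ∏ c, GG (At y c) α B (N0 c) (EE q r (2 * L) c) N) / (X : ℝ))
      atTop (𝓝 (∑ _y : Y, ρ ^ ((2 * q) ^ r))) :=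
    tendsto_finsetSum _ fun y _ => avg_GG q r L hα B (At y) (hAt y) N0
  -- every `N` has a compatible pattern
  have hpat : ∀ N : ℕ, ∃ y : Y, ∀ c, 1 ≤ GG (At y c) α B (N0 c) (EE q r (2 * L) c) N := by
    intro N
    refine ⟨fun p => ⟨τ (a p.1 (pos q r (2 * L) m0 N p.2.1 p.2.2)), hτT _⟩, fun c => ?_⟩
    refine GG_ge_one _ _ _ hden _ _ _ ?_
    have hw := window_bound (F := fun k => e ((k : ℝ) ^ 2 * α) *
      ∏ j, (a j (del q r (2 * L) c * (k + h j)) : ℂ))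
      (fun n hn => hC (del q r (2 * L) c) n (del_pos q r (2 * L) c) hn)
      (N0 c + EE q r (2 * L) c * N) L
    have hdiff : ‖(∑ i : Fin L, e (((N0 c + EE q r (2 * L) c * N + 1 + (i : ℕ) : ℕ) : ℝ) ^ 2 * α) *
        At (fun p => ⟨τ (a p.1 (pos q r (2 * L) m0 N p.2.1 p.2.2)), hτT _⟩) c i) -
        ∑ i : Fin L, e (((N0 c + EE q r (2 * L) c * N + 1 + (i : ℕ) : ℕ) : ℝ) ^ 2 * α) *
          ∏ j, (a j (del q r (2 * L) c *
            (N0 c + EE q r (2 * L) c * N + 1 + (i : ℕ) + h j)) : ℂ)‖ ≤ 1 := by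
      rw [← Finset.sum_sub_distrib]
      refine (norm_sum_le _ _).trans ?_
      have hterm : ∀ i : Fin L, ‖e (((N0 c + EE q r (2 * L) c * N + 1 + (i : ℕ) : ℕ) : ℝ) ^ 2 * α) *
          At (fun p => ⟨τ (a p.1 (pos q r (2 * L) m0 N p.2.1 p.2.2)), hτT _⟩) c i -
          e (((N0 c + EE q r (2 * L) c * N + 1 + (i : ℕ) : ℕ) : ℝ) ^ 2 * α) *
          ∏ j, (a j (del q r (2 * L) c *
            (N0 c + EE q r (2 * L) c * N + 1 + (i : ℕ) + h j)) : ℂ)‖ ≤
          l * (1 / (L * l + 1)) := by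
        intro i
        rw [← mul_sub, norm_mul, norm_e, one_mul]
        have hp := norm_prod_sub_le (Finset.univ : Finset (Fin l))
          (fun j => τ (a j (pos q r (2 * L) m0 N ⟨1 + i + h j, hs i j⟩
            (fun t => comp q ⟨1 + i + h j, hs i j⟩ (c t)))))
          (fun j => a j (pos q r (2 * L) m0 N ⟨1 + i + h j, hs i j⟩
            (fun t => comp q ⟨1 + i + h j, hs i j⟩ (c t))))
          (ε := 1 / (L * l + 1)) (by
            intro j _
            rw [norm_sub_rev]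
            exact (hτ _).le)
        rw [Finset.card_univ, Fintype.card_fin] at hp
        refine le_of_eq_of_le ?_ hp
        congr 2
        refine Finset.prod_congr rfl fun j _ => ?_
        rw [← pos_eq q r (2 * L) hN0 N ⟨1 + i + h j, hs i j⟩ c]
        simp only
        congr 3
        ring
      refine (Finset.sum_le_sum fun i _ => hterm i).trans ?_
      rw [Finset.sum_const, Finset.card_univ, Fintype.card_fin, nsmul_eq_mul]
      have hpos : (0 : ℝ) < L * l + 1 := by positivity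
      rw [← mul_assoc, mul_one_div, div_le_one hpos]
      linarith
    have htri := norm_le_norm_add_norm_sub'
      (∑ i : Fin L, e (((N0 c + EE q r (2 * L) c * N + 1 + (i : ℕ) : ℕ) : ℝ) ^ 2 * α) *
        At (fun p => ⟨τ (a p.1 (pos q r (2 * L) m0 N p.2.1 p.2.2)), hτT _⟩) c i)
      (∑ i : Fin L, e (((N0 c + EE q r (2 * L) c * N + 1 + (i : ℕ) : ℕ) : ℝ) ^ 2 * α) *
          ∏ j, (a j (del q r (2 * L) c *
            (N0 c + EE q r (2 * L) c * N + 1 + (i : ℕ) + h j)) : ℂ))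
    linarith
  have hge : ∀ᶠ X : ℕ in atTop, 1 ≤ ∑ y : Y, (∑ N ∈ range X,
      ∏ c, GG (At y c) α B (N0 c) (EE q r (2 * L) c) N) / (X : ℝ) := by
    filter_upwards [eventually_gt_atTop 0] with X hX
    have hX' : (0 : ℝ) < X := by exact_mod_cast hX
    rw [← Finset.sum_div, le_div_iff₀ hX', one_mul, Finset.sum_comm]
    have h1 : ∀ N ∈ range X, (1 : ℝ) ≤ ∑ y : Y,
        ∏ c, GG (At y c) α B (N0 c) (EE q r (2 * L) c) N := by
      intro N _
      obtain ⟨y, hy⟩ := hpat N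
      have h2 : (1 : ℝ) ≤ ∏ c, GG (At y c) α B (N0 c) (EE q r (2 * L) c) N := by
        rw [← Finset.prod_const_one (s := (Finset.univ : Finset (Fin r → Fin (2 * q))))]
        exact Finset.prod_le_prod (fun _ _ => zero_le_one) fun c _ => hy c
      refine h2.trans ?_
      exact Finset.single_le_sum
        (f := fun y : Y => ∏ c, GG (At y c) α B (N0 c) (EE q r (2 * L) c) N)
        (fun y _ => Finset.prod_nonneg fun c _ => GG_nonneg _ (hAt y c) α B hden _ _ _)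
        (Finset.mem_univ y)
    calc (X : ℝ) = ∑ _N ∈ range X, (1 : ℝ) := by simp
      _ ≤ _ := Finset.sum_le_sum h1
  have h1 := ge_of_tendsto hlim hge
  rw [Finset.sum_const, Finset.card_univ, nsmul_eq_mul] at h1
  have hcard : Fintype.card Y = T.card ^ (l * q * (2 * q - 1) ^ r) := by
    simp only [Y, Fintype.card_fun, Fintype.card_prod, Fintype.card_fin, Fintype.card_coe]
    congr 1
    ring
  rw [hcard] at h1
  push_cast at h1
  linarith

end Pool.Agent.H633R3.Corr
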