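import Mathlib

/-!
Good and bad sets for the Erdős discrepancy problem, and a criterion for bad sets: if a completely
multiplicative unimodular function has bounded sums along an increasing enumeration of `S`, then
`S` is bad.
-/

set_option autoImplicit false

namespace Pool.Agent.H633R3.Disc

open Finset

/-- `w` is a good weight: for every unimodular sequence `a` the supremum over `d, n ≥ 1` of
`|∑_{1 ≤ k ≤ n} w(k) a(dk)|` is infinite. (The values of `w` and `a` at `0` play no role.) -/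
def GoodWeight (w : ℕ → ℂ) : Prop :=
  ∀ a : ℕ → Circle, ∀ C : ℝ, ∃ d n : ℕ, 1 ≤ d ∧ 1 ≤ n ∧
    C < ‖∑ k ∈ Icc 1 n, w k * (a (d * k) : ℂ)‖

/-- A set of positive integers is good if its indicator is a good weight. -/
def Good (S : Set ℕ) : Prop := GoodWeight (S.indicator 1)

/-- A set is bad if it is not good. -/
def Bad (S : Set ℕ) : Prop := ¬ Good S

theorem exists_cut {φ : ℕ → ℕ} (hφ : StrictMono φ) (x : ℕ) : ∃ N : ℕ, ∀ i, φ i ≤ x ↔ i < N := by
  have hex : ∃ i, x < φ i := ⟨x + 1, (Nat.lt_succ_self x).trans_le (hφ.le_apply)⟩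
  classical
  refine ⟨Nat.find hex, fun i => ⟨fun h => ?_, fun h => ?_⟩⟩
  · by_contra hc
    exact absurd (h.trans_lt (Nat.find_spec hex)) (not_lt.mpr (hφ.monotone (not_lt.mp hc)))
  · exact not_lt.mp (Nat.find_min hex h)

/-- Criterion for bad sets. -/
theorem bad_of_enum {φ : ℕ → ℕ} (hφ : StrictMono φ) (h1 : 1 ≤ φ 0) {S : Set ℕ}
    (hS : S = Set.range φ) (a : ℕ → Circle)
    (hmul : ∀ m n : ℕ, 1 ≤ m → 1 ≤ n → a (m * n) = a m * a n) {C : ℝ}
    (hC : ∀ N : ℕ, ‖∑ i ∈ range N, (a (φ i) : ℂ)‖ ≤ C) : Bad S := by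
  classical
  intro hgood
  obtain ⟨d, n, hd, _, hlt⟩ := hgood a C
  refine absurd hlt (not_lt.mpr ?_)
  obtain ⟨N, hN⟩ := exists_cut hφ n
  have hpos : ∀ i, 1 ≤ φ i := fun i => h1.trans (hφ.monotone (Nat.zero_le i))
  have h2 : ∑ k ∈ Icc 1 n, S.indicator (1 : ℕ → ℂ) k * (a (d * k) : ℂ) =
      ∑ i ∈ range N, (a (d * φ i) : ℂ) := by
    have h3 : (Icc 1 n).filter (fun k => k ∈ S) = (range N).image φ := by
      ext k
      simp only [Finset.mem_filter, Finset.mem_Icc, Finset.mem_image, Finset.mem_range, hS,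
        Set.mem_range]
      constructor
      · rintro ⟨⟨_, hk2⟩, i, rfl⟩
        exact ⟨i, (hN i).mp hk2, rfl⟩
      · rintro ⟨i, hi, rfl⟩
        exact ⟨⟨hpos i, (hN i).mpr hi⟩, i, rfl⟩
    have h4 : ∑ k ∈ Icc 1 n, S.indicator (1 : ℕ → ℂ) k * (a (d * k) : ℂ) =
        ∑ k ∈ (Icc 1 n).filter (fun k => k ∈ S), (a (d * k) : ℂ) := by
      rw [Finset.sum_filter]
      refine Finset.sum_congr rfl fun k _ => ?_
      by_cases hk : k ∈ S
      · rw [Set.indicator_of_mem hk, if_pos hk, Pi.one_apply, one_mul]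
      · rw [Set.indicator_of_notMem hk, if_neg hk, zero_mul]
    rw [h4, h3, Finset.sum_image (fun i _ j _ h => hφ.injective h)]
  have h5 : ∑ i ∈ range N, (a (d * φ i) : ℂ) = (a d : ℂ) * ∑ i ∈ range N, (a (φ i) : ℂ) := by
    rw [Finset.mul_sum]
    refine Finset.sum_congr rfl fun i _ => ?_
    rw [hmul d (φ i) hd (hpos i), Circle.coe_mul]
  rw [h2, h5, norm_mul, Circle.norm_coe, one_mul]
  exact hC N

/-- If all sums over the blocks `[B s, B (s + 1))` vanish then the partial sums are bounded. -/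
theorem block_bound {F : ℕ → ℂ} (hF : ∀ n, ‖F n‖ ≤ 1) {B : ℕ} (hB : 0 < B)
    (hblock : ∀ s : ℕ, ∑ j ∈ range B, F (B * s + j) = 0) (N : ℕ) :
    ‖∑ i ∈ range N, F i‖ ≤ B := by
  have h1 : ∀ s : ℕ, ∑ i ∈ range (B * s), F i = 0 := by
    intro s
    induction s with
    | zero => simp
    | succ s ih =>
      rw [Nat.mul_succ, Finset.sum_range_add, ih, hblock s, add_zero]
  have h2 : N = B * (N / B) + N % B := (Nat.div_add_mod N B).symm
  rw [h2, Finset.sum_range_add, h1, zero_add]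
  refine (norm_sum_le _ _).trans ((Finset.sum_le_sum fun i _ => hF _).trans ?_)
  rw [Finset.sum_const, Finset.card_range, nsmul_eq_mul, mul_one]
  exact_mod_cast (Nat.mod_lt N hB).le

end Pool.Agent.H633R3.Disc
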